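import Mathlib
import Pool.Agent.H60.Tern

open Polynomial Pool.Agent.H60.Tern in
/-- For `n ≥ 1`, with `G` the monic gcd of the `h_λ` over ternary partitions `λ` of `n` and
`num = (∑ h_λ) / G`, one has `num(-1) = 3 ^ val₃((3⌊n/3⌋)!)`. -/
theorem Pool.Agent.Results.MP_6f4f36_nt.Value.result (n : ℕ) (hn : 1 ≤ n) :
    ∃ G num : ℤ[X], G.Monic ∧ (∀ D : ℤ[X], D ∣ G ↔ ∀ l ∈ T n, D ∣ h l) ∧
      ∑ l ∈ T n, h l = G * num ∧ num.eval (-1) = 3 ^ padicValNat 3 (3 * (n / 3)).factorial :=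
  main n hn
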